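import Pool.Agent.Helper365.SP.Rows

/-!
Arches of a given span: lower bounds for their numbers.
-/

set_option autoImplicit false

namespace Pool.Agent.Helper365.SP

open H981 Finset Pool.Agent.TH795.EP Pool.Agent.TH795.EP2 Pool.Agent.Y981.L2 Pool.Agent.Helper365.SB

theorem mass_smul {e l : ℝ} (he : 0 ≤ e) (hl : 1 ≤ l) : mass (l * e) ≤ l * mass e := by
  have hl0 : 0 < l := by linarith
  unfold Y981.L2.mass
  apply csSup_le ⟨0, zero_mem (mul_nonneg hl0.le he)⟩
  rintro h ⟨h0, hh⟩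
  have h1 := psi_smul (h := h) (t := 1 / l) h0 (by positivity) (by
    rw [div_le_one hl0]; exact hl)
  have h2 : 1 / l * psi h ≤ e := by
    rw [one_div, inv_mul_le_iff₀ hl0]
    exact hh
  have h3 := le_mass (e := e) (h := 1 / l * h) (by positivity) (h1.trans h2)
  unfold Y981.L2.mass at h3
  rw [one_div, inv_mul_le_iff₀ hl0] at h3
  exact h3

theorem path_qt (w : List St) (k : ℕ) : path (sg (sw w)) k = (-(path w k).2, (path w k).1) := by
  rw [path_sg, path_sw]

theorem arch_sub (X D m : ℕ) : la m X 0 ≤ (fs (Arch X D) m).card +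
    (fs (fun w => Saw w ∧ Wide (D : ℝ) w) m).card := by
  classical
  have h1 : (fs (fun w => ((Saw w ∧ dx w = X ∧ dy w = 0) ∧ Lo w) ∧ ¬ Wide (D : ℝ) w) m).card ≤
      (fs (Arch X D) m).card := by
    apply Finset.card_le_card_of_injOn (fun w => sg (sw w))
    · intro w hw
      rw [Finset.mem_coe, mem_fs] at hw ⊢
      obtain ⟨⟨⟨⟨hs, hx, hy⟩, hlo⟩, hW⟩, hl⟩ := hw
      have hlen : (sg (sw w)).length = w.length := by rw [length_sg, length_sw]
      show Arch X D (sg (sw w)) ∧ (sg (sw w)).length = m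
      refine ⟨⟨(saw_sw hs).sg, ?_, ?_, ?_, ?_, ?_, ?_⟩, by rw [hlen, hl]⟩
      · rw [dx_sg, dx_sw, hy]; rfl
      · rw [dy_sg, dy_sw, hx]
      · intro k _
        rw [path_qt]
        have := hlo k
        simp only
        omega
      · intro k hk
        rw [path_qt]
        have h2 := abs_lt.1 (not_wide' hW (show k ≤ w.length by omega)).2
        have h3 : -(D : ℤ) < (path w k).2 := by exact_mod_cast h2.1
        simp only
        omega
      · intro k hk
        rw [path_qt]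
        have h2 := abs_lt.1 (not_wide' hW (show k ≤ w.length by omega)).1
        have h3 : -(D : ℤ) < (path w k).1 := by exact_mod_cast h2.1
        simp only
        omega
      · intro k hk
        rw [path_qt]
        have h2 := abs_lt.1 (not_wide' hW (show k ≤ w.length by omega)).1
        have h3 : (path w k).1 < (D : ℤ) := by exact_mod_cast h2.2
        simp only
        omega
    · intro u _ v _ he
      exact sw_injective (sg_injective he)
  refine le_trans ?_ (Nat.add_le_add_right h1 _)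
  unfold la
  rw [← Finset.card_union_add_card_inter]
  refine le_trans (Finset.card_le_card ?_) (Nat.le_add_right _ _)
  intro w hw
  rw [mem_fs] at hw
  rw [Finset.mem_union, mem_fs, mem_fs]
  by_cases hW : Wide (D : ℝ) w
  · exact Or.inr ⟨⟨hw.1.1.1, hW⟩, hw.2⟩
  · exact Or.inl ⟨⟨hw.1, hW⟩, hw.2⟩

/-- **arches** -/
theorem arches (B : ℝ) (hB : 0 ≤ B) : ∃ C : ℝ, 1 ≤ C ∧ ∀ N : ℕ, 2 ≤ N → ∀ X : ℕ, 2 ≤ X →
    X * mass (1 / N) ≤ B * Lg N → ∃ m D : ℕ, 2 ≤ m ∧ (m : ℝ) ≤ C * N * Lg N ∧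
      (D : ℝ) * mass (1 / N) ≤ C * Lg N ^ 2 ∧ X ≤ D ∧
      mu ^ m * q N (-C) ≤ ((fs (Arch X D) m).card : ℝ) := by
  obtain ⟨K, hK, hwide⟩ := wide_count
  obtain ⟨K1, hK1, hla⟩ := a_le_la
  obtain ⟨K2, hK2, hldp⟩ := ldp_words
  obtain ⟨b, hb⟩ := pow_unbounded_of_one_lt (2 * B + 6) (show (1 : ℝ) < 2 by norm_num)
  obtain ⟨G, hG⟩ : ∃ G : ℝ, G = (b + 3) ^ 2 := ⟨_, rfl⟩
  have hG0 : 0 ≤ G := by rw [hG]; positivity
  obtain ⟨E, hE⟩ : ∃ E, E = 2 * B + 6 + (K1 + K2) * G := ⟨_, rfl⟩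
  have hE0 : 0 ≤ E := by rw [hE]; positivity
  obtain ⟨C2, hC2⟩ : ∃ C2, C2 = 4 * (2 * B + 6) * (K * G + E + 3) := ⟨_, rfl⟩
  have hC20 : 0 ≤ C2 := by rw [hC2]; positivity
  have hm1 := mass_pos (e := 1) one_pos
  refine ⟨C2 + E + 5 * mass 1 + 3 * B + 2 * B + 6 + 3, by linarith, ?_⟩
  intro N hN X hX hXm
  have hmu := mu_pos
  have hN0 : (0 : ℝ) < N := by exact_mod_cast (by omega : 0 < N)
  have hN2 : (2 : ℝ) ≤ N := by exact_mod_cast hN
  have hLg := Lg_ge hN
  have hX0 : (0 : ℝ) < X := by exact_mod_cast (by omega : 0 < X)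
  obtain ⟨e, he⟩ : ∃ e, e = 1 / (N : ℝ) := ⟨_, rfl⟩
  have he0 : 0 < e := by rw [he]; positivity
  rw [← he] at hXm ⊢
  have hme := mass_pos he0
  have hme1 : mass e ≤ mass 1 := mass_mono he0.le (by
    rw [he, div_le_one hN0]; linarith)
  obtain ⟨u, hu0, hu1, hu⟩ := exists_speed he0 hme
  have hR0 := R_nonneg hu0.le hu1
  have huu : (mass e + mass e) * u = 2 * mass e * u := by ring
  rw [huu] at hu
  have hRu2 : R u ≤ 2 * mass e * u := by linarith
  have hRu : R u ≤ Real.log mu := R_le hu0.le hu1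
  have hlogmu : Real.log mu ≤ 1.4 := by
    have h1 := Real.log_le_log hmu mu_le_four
    have h2 : Real.log 4 = 2 * Real.log 2 := by
      rw [show (4 : ℝ) = 2 ^ 2 by norm_num, Real.log_pow]; norm_num
    have h3 := Real.log_two_lt_d9
    linarith
  -- the length
  obtain ⟨m, hm1', hm2, hm3⟩ : ∃ m : ℕ, (X : ℝ) / u ≤ m ∧ (m : ℝ) ≤ X / u + 2 ∧
      ((X : ℤ) + 0 - m) % 2 = 0 := by
    obtain ⟨n0, hn0⟩ : ∃ n0, n0 = ⌈(X : ℝ) / u⌉₊ := ⟨_, rfl⟩
    have h1 : (X : ℝ) / u ≤ n0 := by rw [hn0]; exact Nat.le_ceil _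
    have h2 : (n0 : ℝ) < X / u + 1 := by rw [hn0]; exact Nat.ceil_lt_add_one (by positivity)
    rcases Int.emod_two_eq_zero_or_one ((X : ℤ) + 0 - n0) with h3 | h3
    · exact ⟨n0, h1, by linarith, h3⟩
    · refine ⟨n0 + 1, ?_, ?_, ?_⟩
      · push_cast; linarith
      · push_cast; linarith
      · push_cast; omega
  have hXu : (X : ℝ) ≤ X / u := by
    rw [le_div_iff₀ hu0]
    exact mul_le_of_le_one_right hX0.le hu1
  have hXm' : X ≤ m := by
    have : (X : ℝ) ≤ m := hXu.trans hm1'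
    exact_mod_cast this
  have hm2' : 2 ≤ m := by omega
  have hm0 : (0 : ℝ) < m := by exact_mod_cast (by omega : 0 < m)
  -- length bound
  have hinv : 1 / u ≤ 2 * N * mass e := by
    rw [div_le_iff₀ hu0]
    have h1 : e ≤ 2 * mass e * u := by linarith
    have h2 : N * e = 1 := by rw [he]; field_simp
    calc (1 : ℝ) = N * e := h2.symm
      _ ≤ N * (2 * mass e * u) := mul_le_mul_of_nonneg_left h1 hN0.le
      _ = 2 * N * mass e * u := by ring
  have hXu2 : (X : ℝ) / u ≤ 2 * B * (N * Lg N) := by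
    calc (X : ℝ) / u = X * (1 / u) := by ring
      _ ≤ X * (2 * N * mass e) := mul_le_mul_of_nonneg_left hinv hX0.le
      _ = 2 * N * (X * mass e) := by ring
      _ ≤ 2 * N * (B * Lg N) := mul_le_mul_of_nonneg_left hXm (by positivity)
      _ = 2 * B * (N * Lg N) := by ring
  have hNL : (0.94 : ℝ) ≤ N * Lg N := by
    have := mul_le_mul hN2 hLg (by norm_num) hN0.le
    linarith
  have hmle : (m : ℝ) ≤ (2 * B + 6) * (N * Lg N) := by
    have : (2 * B + 6) * (N * Lg N) = 2 * B * (N * Lg N) + 6 * (N * Lg N) := by ring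
    linarith
  -- logarithms
  have hLm : Lg m ≤ G * Lg N := by
    have h1 : (m : ℝ) ≤ (N : ℝ) ^ (b + 3) := by
      have h2 := Lg_le_sq (show 1 ≤ N by omega)
      have h3 : (2 * B + 6) ≤ (N : ℝ) ^ b := hb.le.trans (pow_le_pow_left₀ (by norm_num) hN2 b)
      calc (m : ℝ) ≤ (2 * B + 6) * (N * Lg N) := hmle
        _ ≤ (N : ℝ) ^ b * (N * (N : ℝ) ^ 2) := by gcongr
        _ = (N : ℝ) ^ (b + 3) := by ring
    have h2 : Real.log m ≤ (b + 3) * Real.log N := by
      have h3 := Real.log_le_log hm0 h1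
      rw [Real.log_pow] at h3
      push_cast at h3
      exact h3
    have h3 : 0 ≤ Real.log m := Real.log_nonneg (by exact_mod_cast (by omega : 1 ≤ m))
    unfold Lg
    rw [hG, ← mul_pow]
    exact pow_le_pow_left₀ h3 h2 2
  -- the number of arches
  have hle : |(X : ℤ)| + |(0 : ℤ)| ≤ m := by simp; exact hXm'
  have hne : ((X : ℤ), (0 : ℤ)) ≠ (0, 0) := by simp; omega
  have h1 := hldp m hm2' X 0 hne hm3 hle
  have h1' := (abs_le.1 h1).1
  have ha1 := Pool.Agent.TH795.SE2.one_le_a hne hm3 hle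
  have ha : (0 : ℝ) < a m X 0 := by exact_mod_cast ha1
  have hc := c_pos m
  have hR2 : Rate ((X : ℝ) / m, 0) = R ((X : ℝ) / m) := rfl
  simp only [Int.cast_natCast, Int.cast_zero, zero_div] at h1'
  rw [hR2] at h1'
  have hR1 : R ((X : ℝ) / m) ≤ R u := by
    apply R_mono (by positivity) _ hu1
    rw [div_le_iff₀ hm0]
    rw [div_le_iff₀ hu0] at hm1'
    linarith
  have hmR : (m : ℝ) * R ((X : ℝ) / m) ≤ 2 * B * Lg N + 2.8 := by
    have g1 : (m : ℝ) * R ((X : ℝ) / m) ≤ m * R u := mul_le_mul_of_nonneg_left hR1 hm0.le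
    have g2 : (m : ℝ) * R u ≤ (X / u + 2) * R u := mul_le_mul_of_nonneg_right hm2 hR0
    have g3 : (X : ℝ) / u * R u ≤ 2 * (X * mass e) := by
      rw [div_mul_eq_mul_div, div_le_iff₀ hu0]
      calc (X : ℝ) * R u ≤ X * (2 * mass e * u) := mul_le_mul_of_nonneg_left hRu2 hX0.le
        _ = 2 * (X * mass e) * u := by ring
    have g4 : (X / u + 2) * R u = X / u * R u + 2 * R u := by ring
    linarith
  have ha2 : mu ^ m * Real.exp (-(2 * B * Lg N + 2.8) - K2 * Lg m) ≤ a m X 0 := by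
    have g1 : Real.exp (-(2 * B * Lg N + 2.8) - K2 * Lg m) ≤ (a m X 0 : ℝ) / c m := by
      rw [← Real.le_log_iff_exp_le (by positivity)]
      have g2 : Real.log m ^ 2 = Lg m := rfl
      rw [g2] at h1'
      linarith
    rw [le_div_iff₀ hc] at g1
    have g3 : mu ^ m ≤ c m := by rw [c_eq]; exact mu_pow_le m
    calc mu ^ m * Real.exp (-(2 * B * Lg N + 2.8) - K2 * Lg m) ≤
        c m * Real.exp (-(2 * B * Lg N + 2.8) - K2 * Lg m) :=
          mul_le_mul_of_nonneg_right g3 (Real.exp_pos _).le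
      _ = Real.exp (-(2 * B * Lg N + 2.8) - K2 * Lg m) * c m := mul_comm _ _
      _ ≤ _ := g1
  have hla2 : mu ^ m * q N (-E) ≤ la m X 0 := by
    have g1 := hla m hm2' m le_rfl X (by omega)
    have g2 : (0 : ℝ) ≤ la m X 0 := Nat.cast_nonneg _
    have g3 : (a m X 0 : ℝ) * q m (-K1) ≤ la m X 0 := by
      calc (a m X 0 : ℝ) * q m (-K1) ≤ (q m K1 * la m X 0) * q m (-K1) :=
            mul_le_mul_of_nonneg_right g1 (q_pos _ _).le
        _ = (q m K1 * q m (-K1)) * la m X 0 := by ring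
        _ = la m X 0 := by rw [q_cancel, one_mul]
    refine le_trans ?_ g3
    refine le_trans ?_ (mul_le_mul_of_nonneg_right ha2 (q_pos _ _).le)
    rw [mul_assoc]
    apply mul_le_mul_of_nonneg_left _ (pow_pos hmu m).le
    rw [q_eq, q_eq, ← Real.exp_add]
    apply Real.exp_le_exp.2
    have g4 := mul_le_mul_of_nonneg_left hLm (show 0 ≤ K1 + K2 by linarith)
    have g5 : -E * Lg N = -(2 * B * Lg N + 6 * Lg N + (K1 + K2) * (G * Lg N)) := by rw [hE]; ring
    have g6 : (K1 + K2) * Lg m = K1 * Lg m + K2 * Lg m := by ring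
    rw [g5]
    linarith
  -- the wide ones
  obtain ⟨D, hD⟩ : ∃ D, D = ⌈C2 * Lg N ^ 2 / mass e⌉₊ + X := ⟨_, rfl⟩
  have hDX : X ≤ D := by omega
  have hDge : C2 * Lg N ^ 2 ≤ D * mass e := by
    have g1 : C2 * Lg N ^ 2 / mass e ≤ (D : ℝ) := by
      rw [hD]
      push_cast
      have := Nat.le_ceil (C2 * Lg N ^ 2 / mass e)
      linarith
    rwa [div_le_iff₀ hme] at g1
  have hDle : (D : ℝ) * mass e ≤ C2 * Lg N ^ 2 + mass 1 + B * Lg N := by
    have g1 : (D : ℝ) ≤ C2 * Lg N ^ 2 / mass e + 1 + X := by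
      rw [hD]
      push_cast
      have := Nat.ceil_lt_add_one (a := C2 * Lg N ^ 2 / mass e) (by positivity)
      linarith
    have g2 := mul_le_mul_of_nonneg_right g1 hme.le
    have g3 : (C2 * Lg N ^ 2 / mass e + 1 + X) * mass e = C2 * Lg N ^ 2 + mass e + X * mass e := by
      field_simp
    linarith
  have hD0 : (0 : ℝ) < D := by exact_mod_cast (by omega : 0 < D)
  have hmm : mass e ≤ ((2 * B + 6) * Lg N) * mass (1 / m) := by
    have hmp := mass_pos (e := 1 / (m : ℝ)) (by positivity)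
    have hge : (1 : ℝ) ≤ (2 * B + 6) * Lg N := by
      have g1 : 0 ≤ 2 * B * Lg N := by positivity
      have g2 : (2 * B + 6) * Lg N = 2 * B * Lg N + 6 * Lg N := by ring
      linarith
    rcases le_total N m with h | h
    · have hmN : (1 : ℝ) ≤ (m : ℝ) / N := by
        rw [le_div_iff₀ hN0, one_mul]
        exact_mod_cast h
      have g1 := mass_smul (e := 1 / (m : ℝ)) (l := (m : ℝ) / N) (by positivity) hmN
      have e1 : (m : ℝ) / N * (1 / m) = e := by rw [he]; field_simp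
      rw [e1] at g1
      refine g1.trans (mul_le_mul_of_nonneg_right ?_ hmp.le)
      rw [div_le_iff₀ hN0]
      linarith
    · have g1 : mass e ≤ mass (1 / m) := by
        apply mass_mono he0.le
        rw [he]
        apply one_div_le_one_div_of_le hm0
        exact_mod_cast h
      have g2 := mul_le_mul_of_nonneg_right hge hmp.le
      rw [one_mul] at g2
      exact g1.trans g2
  have hw := hwide m hm2' D hD0
  have hw2 : ((fs (fun w => Saw w ∧ Wide (D : ℝ) w) m).card : ℝ) ≤ mu ^ m * q N (-(E + 3)) := by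
    refine hw.trans (mul_le_mul_of_nonneg_left ?_ (pow_pos hmu m).le)
    rw [q_eq]
    apply Real.exp_le_exp.2
    have g1 : C2 * Lg N ^ 2 ≤ D * (((2 * B + 6) * Lg N) * mass (1 / m)) :=
      hDge.trans (mul_le_mul_of_nonneg_left hmm hD0.le)
    have g2 : 4 * (K * G + E + 3) * Lg N ≤ D * mass (1 / m) := by
      have hpos : 0 < (2 * B + 6) * Lg N := mul_pos (by linarith) (by linarith)
      have g3 : (4 * (K * G + E + 3) * Lg N) * ((2 * B + 6) * Lg N) ≤
          (D * mass (1 / m)) * ((2 * B + 6) * Lg N) := by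
        calc (4 * (K * G + E + 3) * Lg N) * ((2 * B + 6) * Lg N) = C2 * Lg N ^ 2 := by
              rw [hC2]; ring
          _ ≤ D * (((2 * B + 6) * Lg N) * mass (1 / m)) := g1
          _ = _ := by ring
      exact le_of_mul_le_mul_right g3 hpos
    have g4 := mul_le_mul_of_nonneg_left hLm hK
    have g5 : 4 * (K * G + E + 3) * Lg N = 4 * (K * (G * Lg N)) + 4 * ((E + 3) * Lg N) := by ring
    have g6 : -(E + 3) * Lg N = -((E + 3) * Lg N) := by ring
    rw [g6]
    linarith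
  have hhalf : q N (-(E + 3)) ≤ q N (-E) / 2 := by
    rw [q_eq, q_eq, show -(E + 3) * Lg N = -E * Lg N + -(3 * Lg N) by ring, Real.exp_add]
    have h5 : Real.exp (-(3 * Lg N)) ≤ 1 / 2 := by
      have h6 : Real.exp (-(3 * Lg N)) ≤ Real.exp (-1) := Real.exp_le_exp.2 (by linarith)
      have h7 : Real.exp (-1) ≤ 1 / 2 := by
        rw [Real.exp_neg, inv_eq_one_div]
        apply one_div_le_one_div_of_le (by norm_num)
        have := Real.add_one_le_exp (1 : ℝ)
        linarith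
      linarith
    have := Real.exp_pos (-E * Lg N)
    nlinarith
  have hsub := arch_sub X D m
  have hsubR : (la m X 0 : ℝ) ≤ ((fs (Arch X D) m).card : ℝ) +
      ((fs (fun w => Saw w ∧ Wide (D : ℝ) w) m).card : ℝ) := by exact_mod_cast hsub
  refine ⟨m, D, hm2', ?_, ?_, hDX, ?_⟩
  · have hNL0 : 0 ≤ N * Lg N := by linarith
    have g1 : (2 * B + 6) * (N * Lg N) ≤
        (C2 + E + 5 * mass 1 + 3 * B + 2 * B + 6 + 3) * (N * Lg N) :=
      mul_le_mul_of_nonneg_right (by linarith) hNL0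
    have g2 : (C2 + E + 5 * mass 1 + 3 * B + 2 * B + 6 + 3) * N * Lg N =
        (C2 + E + 5 * mass 1 + 3 * B + 2 * B + 6 + 3) * (N * Lg N) := by ring
    rw [g2]
    linarith
  · have g1 : 0.47 * Lg N ≤ Lg N ^ 2 := by
      have := mul_le_mul_of_nonneg_right hLg (show 0 ≤ Lg N by linarith)
      rw [sq]
      linarith
    have g2 : (1 : ℝ) ≤ 5 * Lg N ^ 2 := by linarith
    have g3 : Lg N ≤ 3 * Lg N ^ 2 := by linarith
    have g4 := mul_le_mul_of_nonneg_left g2 hm1.le
    have g5 := mul_le_mul_of_nonneg_left g3 hB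
    have g6 : 0 ≤ (E + 2 * B + 6 + 3) * Lg N ^ 2 := by positivity
    have g7 : (C2 + E + 5 * mass 1 + 3 * B + 2 * B + 6 + 3) * Lg N ^ 2 =
        C2 * Lg N ^ 2 + mass 1 * (5 * Lg N ^ 2) + B * (3 * Lg N ^ 2) +
          (E + 2 * B + 6 + 3) * Lg N ^ 2 := by ring
    rw [g7]
    linarith
  · have hfin : q N (-(C2 + E + 5 * mass 1 + 3 * B + 2 * B + 6 + 3)) ≤ q N (-E) / 2 := by
      refine le_trans (q_mono hN ?_) hhalf
      linarith
    have hp := pow_pos hmu m
    nlinarith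

end Pool.Agent.Helper365.SP
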