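import Pool.Agent.Helper365.SB.Geo
import Pool.Agent.Y981.L2.Area5

/-!
Thin rings: a row, a turn, a row back, a turn.
-/

set_option autoImplicit false

namespace Pool.Agent.Helper365.SP

open H981 Finset Pool.Agent.TH795.EP Pool.Agent.Helper365.SB

/-- an arch: from the origin to `(0, X)` in the right half plane, within distance `D` -/
structure Arch (X D : ℤ) (w : List St) : Prop where
  saw : Saw w
  ex : dx w = 0
  ey : dy w = X
  nn : ∀ k, k ≤ w.length → 0 ≤ (path w k).1
  right : ∀ k, k ≤ w.length → (path w k).1 ≤ D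
  lo : ∀ k, k ≤ w.length → -D ≤ (path w k).2
  hi : ∀ k, k ≤ w.length → (path w k).2 ≤ D

/-- a step and an arch -/
structure Arch1 (X D : ℤ) (w : List St) : Prop where
  saw : Saw w
  ex : dx w = 1
  ey : dy w = X
  pos : ∀ k, 1 ≤ k → k ≤ w.length → 1 ≤ (path w k).1
  right : ∀ k, k ≤ w.length → (path w k).1 ≤ D + 1
  lo : ∀ k, k ≤ w.length → -D ≤ (path w k).2
  hi : ∀ k, k ≤ w.length → (path w k).2 ≤ D

theorem Arch.D_nonneg {X D : ℤ} {w : List St} (b : Arch X D w) : 0 ≤ D := by
  have := b.hi 0 (Nat.zero_le _)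
  rw [path_zero] at this
  exact this

theorem path_E_succ (v : List St) (k : ℕ) :
    path (St.E :: v) (k + 1) = (1 + (path v k).1, (path v k).2) := by
  rw [path_cons_succ, St.x_E, St.y_E, zero_add]

theorem Arch1_of {X D : ℤ} {v : List St} (h : Arch X D v) : Arch1 X D (St.E :: v) := by
  have hD := h.D_nonneg
  refine ⟨?_, ?_, ?_, ?_, ?_, ?_, ?_⟩
  · rw [saw_iff']
    intro i j hij hj
    rw [List.length_cons] at hj
    obtain ⟨l, rfl⟩ : ∃ l, j = l + 1 := ⟨j - 1, by omega⟩
    rw [path_E_succ]
    rcases Nat.eq_zero_or_pos i with h0 | h0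
    · subst h0
      rw [path_zero]
      intro he
      have h1 := congrArg Prod.fst he
      have h2 := h.nn l (by omega)
      simp only at h1
      omega
    · obtain ⟨k, rfl⟩ : ∃ k, i = k + 1 := ⟨i - 1, by omega⟩
      rw [path_E_succ]
      intro he
      simp only [Prod.mk.injEq] at he
      exact saw_iff'.1 h.saw k l (by omega) (by omega) (Prod.ext (by omega) (by omega))
  · rw [dx_cons, h.ex, St.x_E]; rfl
  · rw [dy_cons, h.ey, St.y_E, zero_add]
  · intro k h1 hk
    obtain ⟨l, rfl⟩ : ∃ l, k = l + 1 := ⟨k - 1, by omega⟩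
    rw [List.length_cons] at hk
    rw [path_E_succ]
    have := h.nn l (by omega)
    simp only
    omega
  · intro k hk
    rcases Nat.eq_zero_or_pos k with h0 | h0
    · subst h0
      rw [path_zero]
      simp only
      omega
    · obtain ⟨l, rfl⟩ : ∃ l, k = l + 1 := ⟨k - 1, by omega⟩
      rw [List.length_cons] at hk
      rw [path_E_succ]
      have := h.right l (by omega)
      simp only
      omega
  · intro k hk
    rcases Nat.eq_zero_or_pos k with h0 | h0
    · subst h0
      rw [path_zero]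
      simp only
      omega
    · obtain ⟨l, rfl⟩ : ∃ l, k = l + 1 := ⟨k - 1, by omega⟩
      rw [List.length_cons] at hk
      rw [path_E_succ]
      exact h.lo l (by omega)
  · intro k hk
    rcases Nat.eq_zero_or_pos k with h0 | h0
    · subst h0
      rw [path_zero]
      simp only
      omega
    · obtain ⟨l, rfl⟩ : ∃ l, k = l + 1 := ⟨k - 1, by omega⟩
      rw [List.length_cons] at hk
      rw [path_E_succ]
      exact h.hi l (by omega)

theorem Arch1_card (X D : ℤ) (m : ℕ) : (fs (Arch X D) m).card ≤ (fs (Arch1 X D) (m + 1)).card := by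
  classical
  apply Finset.card_le_card_of_injOn (fun v => St.E :: v)
  · intro v hv
    rw [Finset.mem_coe, mem_fs] at hv ⊢
    exact ⟨Arch1_of hv.1, by rw [List.length_cons, hv.2]⟩
  · intro u _ v _ he
    exact (List.cons.inj he).2

/-- half of a ring: a row, a step, an arch -/
structure Hf (L X T D : ℤ) (w : List St) : Prop where
  saw : Saw w
  ex : dx w = L + 1
  ey : dy w = X
  pos : ∀ k, 1 ≤ k → k ≤ w.length → 0 < (path w k).1
  mid : ∀ k, k ≤ w.length → (path w k).1 ≤ L → (path w k).2 ≤ T
  right : ∀ k, k ≤ w.length → (path w k).1 ≤ L + 1 + D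
  lo : ∀ k, k ≤ w.length → -D ≤ (path w k).2
  hi : ∀ k, k ≤ w.length → (path w k).2 ≤ D

theorem Hf_card (L X T D : ℤ) (hTD : T ≤ D) (m1 m2 : ℕ) :
    (fs (Br L 0 T) m1).card * (fs (Arch X D) m2).card ≤ (fs (Hf L X T D) (m1 + (m2 + 1))).card := by
  refine (Nat.mul_le_mul_left _ (Arch1_card X D m2)).trans ?_
  apply card_append_map (f := id) m1 (m2 + 1) Function.injective_id (fun _ => rfl)
  intro u v hu hv
  simp only [id]
  have hT0 := hu.T_nonneg
  have hL0 := hu.nonneg
  refine ⟨?_, ?_, ?_, ?_, ?_, ?_, ?_, ?_⟩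
  · apply saw_append hu.saw hv.saw
    rintro i j hi h1 hj ⟨h2, h3⟩
    rw [hu.ex] at h2
    have h4 := hu.le i hi
    have h5 := hv.pos j h1 hj
    omega
  · rw [dx_append, hu.ex, hv.ex]
  · rw [dy_append, hu.ey, hv.ey, zero_add]
  · intro k h1 hk
    rcases path_append_cases u v hk with ⟨h2, h3⟩ | ⟨l, hl1, hl2, -, h3⟩
    · rw [h3]; exact hu.pos k h1 h2
    · rw [h3, hu.ex]
      have := hv.pos l hl1 hl2
      simp only
      omega
  · intro k hk hy
    rcases path_append_cases u v hk with ⟨h2, h3⟩ | ⟨l, hl1, hl2, -, h3⟩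
    · rw [h3]
      exact hu.hi k h2
    · rw [h3, hu.ex] at hy
      have := hv.pos l hl1 hl2
      simp only at hy
      omega
  · intro k hk
    rcases path_append_cases u v hk with ⟨h2, h3⟩ | ⟨l, hl1, hl2, -, h3⟩
    · rw [h3]
      have := hu.le k h2
      omega
    · rw [h3, hu.ex]
      have := hv.right l hl2
      simp only
      omega
  · intro k hk
    rcases path_append_cases u v hk with ⟨h2, h3⟩ | ⟨l, hl1, hl2, -, h3⟩
    · rw [h3]
      have := hu.lo k h2
      omega
    · rw [h3, hu.ey]
      have := hv.lo l hl2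
      simp only
      omega
  · intro k hk
    rcases path_append_cases u v hk with ⟨h2, h3⟩ | ⟨l, hl1, hl2, -, h3⟩
    · rw [h3]
      have := hu.hi k h2
      omega
    · rw [h3, hu.ey]
      have := hv.hi l hl2
      simp only
      omega

/-- a closed word in a box -/
structure Ring (L X D : ℤ) (w : List St) : Prop where
  ex : dx w = 0
  ey : dy w = 0
  inj : ∀ i j, i < j → j < w.length → path w i ≠ path w j
  left : ∀ k, k ≤ w.length → -D ≤ (path w k).1
  right : ∀ k, k ≤ w.length → (path w k).1 ≤ L + 1 + D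
  lo : ∀ k, k ≤ w.length → -D ≤ (path w k).2
  hi : ∀ k, k ≤ w.length → (path w k).2 ≤ X + D

/-- rotation by 180 degrees -/
def rt (w : List St) : List St := ng (sg w)

theorem length_rt (w : List St) : (rt w).length = w.length := by
  unfold rt
  rw [length_ng, length_sg]

theorem rt_injective : Function.Injective rt := fun a b h => by
  unfold rt at h
  exact sg_injective (ng_injective h)

theorem path_rt (t : List St) (k : ℕ) :
    path (rt t) k = (-(path t k).1, -(path t k).2) := Pool.Agent.Y981.L2.path_rot t k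

theorem Ring_card (L X T D : ℤ) (hTX : 2 * T < X) (hX : 0 ≤ X) (m1 m2 : ℕ) :
    (fs (Hf L X T D) m1).card * (fs (Hf L X T D) m2).card ≤ (fs (Ring L X D) (m1 + m2)).card := by
  classical
  rw [← Finset.card_product]
  apply Finset.card_le_card_of_injOn (fun p => p.1 ++ rt p.2)
  · rintro ⟨u, v⟩ huv
    rw [Finset.mem_coe, Finset.mem_product, mem_fs, mem_fs] at huv
    obtain ⟨⟨hu, hul⟩, hv, hvl⟩ := huv
    simp only at hu hul hv hvl
    rw [Finset.mem_coe, mem_fs]
    have hlen : (rt v).length = v.length := length_rt v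
    have hD0 : 0 ≤ D := by
      have := hu.hi 0 (Nat.zero_le _)
      rw [path_zero] at this
      exact this
    have edx : dx (rt v) = -dx v := by unfold rt; rw [dx_ng, dx_sg]
    have edy : dy (rt v) = -dy v := by unfold rt; rw [dy_ng, dy_sg]
    have key : ∀ k, k ≤ (u ++ rt v).length →
        (k ≤ u.length ∧ path (u ++ rt v) k = path u k) ∨
        (∃ l, 1 ≤ l ∧ l ≤ v.length ∧ k = u.length + l ∧
          path (u ++ rt v) k = (L + 1 - (path v l).1, X - (path v l).2)) := by
      intro k hk
      rcases path_append_cases u (rt v) hk with h | ⟨l, h1, h2, h3, h4⟩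
      · exact Or.inl h
      · right
        refine ⟨l, h1, by omega, h3, ?_⟩
        rw [h4, path_rt, hu.ex, hu.ey]
        simp only [Prod.mk.injEq]
        constructor <;> ring
    show Ring L X D (u ++ rt v) ∧ (u ++ rt v).length = m1 + m2
    refine ⟨⟨?_, ?_, ?_, ?_, ?_, ?_, ?_⟩, by rw [List.length_append, hlen, hul, hvl]⟩
    · rw [dx_append, edx, hu.ex, hv.ex]; ring
    · rw [dy_append, edy, hu.ey, hv.ey]; ring
    · intro i j hij hj
      have hjl : j ≤ (u ++ rt v).length := hj.le
      have hil : i ≤ (u ++ rt v).length := by omega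
      rcases key j hjl with ⟨h1, h2⟩ | ⟨l, h1, h2, h3, h4⟩
      · rw [h2]
        rcases key i hil with ⟨g1, g2⟩ | ⟨l', g1, g2, g3, g4⟩
        · rw [g2]
          exact saw_iff'.1 hu.saw i j hij h1
        · omega
      · rw [h4]
        rw [List.length_append, hlen] at hj
        rcases key i hil with ⟨g1, g2⟩ | ⟨l', g1, g2, g3, g4⟩
        · rw [g2]
          intro he
          have e1 := congrArg Prod.fst he
          have e2 := congrArg Prod.snd he
          simp only at e1 e2
          have hp := hv.pos l h1 h2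
          rcases Nat.eq_zero_or_pos i with h0 | h0
          · subst h0
            rw [path_zero] at e1 e2
            simp only at e1 e2
            apply saw_iff'.1 hv.saw l v.length (by omega) le_rfl
            rw [path_len, hv.ex, hv.ey]
            exact Prod.ext (by simp only; omega) (by simp only; omega)
          · have hq := hu.pos i h0 g1
            have a1 := hu.mid i g1 (by omega)
            have a2 := hv.mid l h2 (by omega)
            omega
        · rw [g4]
          intro he
          simp only [Prod.mk.injEq] at he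
          exact saw_iff'.1 hv.saw l' l (by omega) h2 (Prod.ext (by omega) (by omega))
    · intro k hk
      rcases key k hk with ⟨h1, h2⟩ | ⟨l, h1, h2, h3, h4⟩
      · rw [h2]
        rcases Nat.eq_zero_or_pos k with h0 | h0
        · rw [h0, path_zero]
          simp only
          omega
        · have := hu.pos k h0 h1
          omega
      · rw [h4]
        have := hv.right l h2
        simp only
        omega
    · intro k hk
      rcases key k hk with ⟨h1, h2⟩ | ⟨l, h1, h2, h3, h4⟩
      · rw [h2]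
        exact hu.right k h1
      · rw [h4]
        have := hv.pos l h1 h2
        simp only
        omega
    · intro k hk
      rcases key k hk with ⟨h1, h2⟩ | ⟨l, h1, h2, h3, h4⟩
      · rw [h2]
        exact hu.lo k h1
      · rw [h4]
        have := hv.hi l h2
        simp only
        omega
    · intro k hk
      rcases key k hk with ⟨h1, h2⟩ | ⟨l, h1, h2, h3, h4⟩
      · rw [h2]
        have := hu.hi k h1
        omega
      · rw [h4]
        have := hv.lo l h2
        simp only
        omega
  · rintro ⟨u, v⟩ h1 ⟨u', v'⟩ h2 heq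
    rw [Finset.mem_coe, Finset.mem_product, mem_fs, mem_fs] at h1 h2
    simp only at h1 h2 heq
    obtain ⟨e1, e2⟩ := List.append_inj heq (by rw [h1.1.2, h2.1.2])
    rw [e1, rt_injective e2]

/-! ### from rings to loops -/

/-- rings are loops in a box -/
theorem ring_loops {n : ℕ} (hn : 1 ≤ n) {L X D : ℤ} :
    (fs (Ring L X D) (2 * n)).card ≤
      {f : ZMod (2 * n) → ℤ × ℤ | IsLoop (2 * n) f ∧ (∀ i, -D ≤ (f i).1 ∧ (f i).1 ≤ L + 1 + D) ∧
        (∀ i, -D ≤ (f i).2 ∧ (f i).2 ≤ X + D)}.ncard := by
  classical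
  obtain ⟨M, hM⟩ : ∃ M, M = 2 * n := ⟨_, rfl⟩
  rw [← hM]
  have : NeZero M := ⟨by omega⟩
  have hval : ∀ k : ℕ, k < M → ((k : ZMod M)).val = k := fun k hk => ZMod.val_cast_of_lt hk
  have hfin : {f : ZMod M → ℤ × ℤ | IsLoop M f ∧ (∀ i, -D ≤ (f i).1 ∧ (f i).1 ≤ L + 1 + D) ∧
        (∀ i, -D ≤ (f i).2 ∧ (f i).2 ≤ X + D)}.Finite := by
    rw [hM]
    exact (Pool.Agent.Y981.L2.loops_finite hn).subset (fun f hf => hf.1)
  have hinj : Set.InjOn (fun (w : List St) => fun i : ZMod M => path w i.val)
      (fs (Ring L X D) M) := by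
    intro u hu v hv heq
    rw [Finset.mem_coe, mem_fs] at hu hv
    apply Pool.Agent.Y981.L2.word_ext (by rw [hu.2, hv.2])
    intro k hk
    rw [hu.2] at hk
    rcases hk.lt_or_eq with h | h
    · have := congrFun heq (k : ZMod M)
      simp only at this
      rwa [hval k h] at this
    · rw [h]
      have e1 := path_len u
      have e2 := path_len v
      rw [hu.2, hu.1.ex, hu.1.ey] at e1
      rw [hv.2, hv.1.ex, hv.1.ey] at e2
      rw [e1, e2]
  rw [← Finset.card_image_of_injOn hinj, ← Set.ncard_coe_finset]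
  apply Set.ncard_le_ncard _ hfin
  intro f hf
  rw [Finset.mem_coe, Finset.mem_image] at hf
  obtain ⟨w, hw, rfl⟩ := hf
  rw [mem_fs] at hw
  obtain ⟨hR, hl⟩ := hw
  have hclose : path w M = (0, 0) := by
    have e1 := path_len w
    rw [hl, hR.ex, hR.ey] at e1
    exact e1
  refine ⟨Pool.Agent.Y981.L2.loop_of (by omega) hl hR.ex hR.ey
    (fun i j hij hj => hR.inj i j hij (by omega)), ?_, ?_⟩
  · intro i
    have hi := ZMod.val_lt i
    exact ⟨hR.left _ (by omega), hR.right _ (by omega)⟩
  · intro i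
    have hi := ZMod.val_lt i
    exact ⟨hR.lo _ (by omega), hR.hi _ (by omega)⟩

/-- **thin rings enclose little** -/
theorem ring_area {n : ℕ} (hn : 1 ≤ n) {L X D : ℤ} (hL : 0 ≤ L) (hX : 0 ≤ X) (hD : 0 ≤ D)
    {r : ℝ} (hr : ((L + 1 + 2 * D : ℤ) : ℝ) * ((X + 2 * D : ℤ) : ℝ) ≤ r) :
    (fs (Ring L X D) (2 * n)).card ≤
      {f : ZMod (2 * n) → ℤ × ℤ | IsLoop (2 * n) f ∧
        (Pool.Agent.Y981.L2.area (2 * n) f : ℝ) ≤ r}.ncard := by
  refine (ring_loops hn).trans ?_
  apply Set.ncard_le_ncard
  · intro f hf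
    have : NeZero (2 * n) := ⟨by omega⟩
    refine ⟨hf.1, ?_⟩
    have h1 := Pool.Agent.Y981.L2.area_le_box hf.1.2.2 hf.2.1 hf.2.2
    refine le_trans (b := (((L + 1 + D - -D).toNat * (X + D - -D).toNat : ℕ) : ℝ)) ?_ ?_
    · exact_mod_cast h1
    · refine le_trans (le_of_eq ?_) hr
      have e1 : (((L + 1 + D - -D).toNat : ℕ) : ℝ) = ((L + 1 + 2 * D : ℤ) : ℝ) := by
        have : (((L + 1 + D - -D).toNat : ℕ) : ℤ) = L + 1 + 2 * D := by omega
        exact_mod_cast this
      have e2 : (((X + D - -D).toNat : ℕ) : ℝ) = ((X + 2 * D : ℤ) : ℝ) := by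
        have : (((X + D - -D).toNat : ℕ) : ℤ) = X + 2 * D := by omega
        exact_mod_cast this
      rw [Nat.cast_mul, e1, e2]
  · exact (Pool.Agent.Y981.L2.loops_finite hn).subset (fun f hf => hf.1)

end Pool.Agent.Helper365.SP
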