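import Pool.Agent.Helper365.SB.Strip
import Pool.Agent.Helper365.SP.Poly
import Pool.Agent.Y981.L2.HalfZ

/-!
Rows of every length, and arches: lower bounds for their numbers.
-/

set_option autoImplicit false

namespace Pool.Agent.Helper365.SP

open H981 Finset Pool.Agent.TH795.EP Pool.Agent.TH795.EP2 Pool.Agent.Y981.L2 Pool.Agent.Helper365.SB

/-- wide words are rare -/
theorem wide_count : ∃ K : ℝ, 0 ≤ K ∧ ∀ m : ℕ, 2 ≤ m → ∀ r : ℝ, 0 < r →
    ((fs (fun w => Saw w ∧ Wide r w) m).card : ℝ) ≤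
      mu ^ m * Real.exp (K * Lg m - r * mass (1 / m) / 4) := by
  classical
  obtain ⟨K1, hK1, h1⟩ := dfar_le
  obtain ⟨K2, hK2, h2⟩ := Pool.Agent.Y981.L2X.far_upper
  obtain ⟨K3, hK3, h3, -⟩ := exists_K
  refine ⟨K1 + K2 + K3, by positivity, ?_⟩
  intro m hm r hr
  have hmu := mu_pos
  have hc := TH795.EP2.c_pos m
  have e1 : ((fs (fun w => Saw w ∧ Wide r w) m).card : ℝ) = dfar m r * c m := by
    unfold dfar
    rw [div_mul_cancel₀ _ hc.ne']
  rw [e1]
  have e2 := h1 m hm r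
  have e3 := h2 m hm r hr.le
  have e4 := h3 m hm m le_rfl
  have e5 : 0 ≤ far m r := by unfold far; positivity
  have e6 := q_pos m K1
  calc dfar m r * c m ≤ (q m K1 * far m r) * c m := mul_le_mul_of_nonneg_right e2 hc.le
    _ ≤ (q m K1 * Real.exp (K2 * Real.log m ^ 2 - r * mass (1 / m) / 4)) *
        (mu ^ m * q m K3) := by gcongr
    _ = mu ^ m * Real.exp ((K1 + K2 + K3) * Lg m - r * mass (1 / m) / 4) := by
        rw [q_eq, q_eq]
        have : Real.log m ^ 2 = Lg m := rfl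
        rw [this]
        rw [show (K1 + K2 + K3) * Lg m - r * mass (1 / m) / 4 =
          K1 * Lg m + (K2 * Lg m - r * mass (1 / m) / 4) + K3 * Lg m by ring,
          Real.exp_add, Real.exp_add]
        ring

theorem not_wide' {r : ℝ} {w : List St} (h : ¬ Wide r w) {k : ℕ} (hk : k ≤ w.length) :
    |((path w k).1 : ℝ)| < r ∧ |((path w k).2 : ℝ)| < r := by
  have h1 : ln2 ((path w k).1, (path w k).2) < r := by
    by_contra hcon
    push Not at hcon
    apply h
    refine ⟨0, k, Nat.zero_le _, hk, ?_⟩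
    rw [path_zero]
    simpa using hcon
  unfold ln2 at h1
  simp only at h1
  have h2 : |((path w k).1 : ℝ)| ≤ Real.sqrt (((path w k).1 : ℝ) ^ 2 + ((path w k).2 : ℝ) ^ 2) := by
    apply Real.abs_le_sqrt
    nlinarith [sq_nonneg ((path w k).2 : ℝ)]
  have h3 : |((path w k).2 : ℝ)| ≤ Real.sqrt (((path w k).1 : ℝ) ^ 2 + ((path w k).2 : ℝ) ^ 2) := by
    apply Real.abs_le_sqrt
    nlinarith [sq_nonneg ((path w k).1 : ℝ)]
  exact ⟨by linarith, by linarith⟩

/-! ### rows -/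

/-- **tubes of every even length** -/
theorem blocks2 : ∃ A : ℝ, 4 ≤ A ∧ ∀ N : ℕ, 2 ≤ N → ∀ R : ℕ, 2 ≤ R →
    A * Lg N ≤ R * mass (1 / N) → ∀ M ≤ N,
    ∃ h : ℕ, h ≤ 2 * R ∧ mu ^ (2 * M) * q N (-A) ≤ ((fs (Br h 0 (2 * R)) (2 * M)).card : ℝ) := by
  classical
  obtain ⟨A0, hA0, h0⟩ := conf_bridges
  refine ⟨2 * (A0 + 12), by linarith, ?_⟩
  intro N hN R hR hRA M hMN
  have hmu := mu_pos
  have hLg := Lg_ge hN
  have hR' : (2 : ℝ) ≤ R := by exact_mod_cast hR
  have hc := h0 N hN R hR' (by nlinarith)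
  rcases Nat.eq_zero_or_pos M with hM0 | hM1
  · subst hM0
    refine ⟨0, Nat.zero_le _, ?_⟩
    have h1 : 1 ≤ (fs (Br ((0 : ℕ) : ℤ) 0 (2 * R)) (2 * 0)).card := by
      apply Finset.one_le_card.2
      refine ⟨[], ?_⟩
      rw [mem_fs]
      exact ⟨by simpa using Br_nil (T := 2 * (R : ℤ)) (by omega), rfl⟩
    have h2 : (1 : ℝ) ≤ ((fs (Br ((0 : ℕ) : ℤ) 0 (2 * R)) (2 * 0)).card : ℝ) := by exact_mod_cast h1
    refine le_trans ?_ h2
    have h3 : q N (-(2 * (A0 + 12))) ≤ 1 := by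
      have := q_mono hN (show -(2 * (A0 + 12)) ≤ 0 by linarith)
      rwa [q_zero] at this
    simpa using h3
  have h1 := hc M hMN
  -- pigeonhole
  obtain ⟨h, v, hv, hhR, hh1, hcard⟩ : ∃ (h : ℕ) (v : ℤ), |v| ≤ R ∧ h ≤ R ∧ 1 ≤ h ∧
      mu ^ M * q N (-(A0 + 12)) ≤ ((fs (Br h v R) M).card : ℝ) := by
    by_contra hcon
    push Not at hcon
    have hsub : fs (fun w => IsB w ∧ ¬ Wide (R : ℝ) w) M ⊆
        ((Icc (1 : ℤ) R) ×ˢ (Icc (-(R : ℤ)) R)).biUnion (fun p => fs (fun w => Br p.1 p.2 R w) M) := by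
      intro w hw
      rw [mem_fs] at hw
      obtain ⟨⟨h2, h3⟩, h4⟩ := hw
      have h5 := Br_of_isB h2 h3
      have h6 := Tl_of_isB h2 h3
      rw [Finset.mem_biUnion]
      refine ⟨(dx w, dy w), ?_, ?_⟩
      · rw [Finset.mem_product, Finset.mem_Icc, Finset.mem_Icc]
        have g1 := h5.pos w.length (by omega) le_rfl
        have g2 := h6.le w.length le_rfl
        have g3 := h6.lo w.length le_rfl
        have g4 := h6.hi w.length le_rfl
        rw [path_len] at g1 g2 g3 g4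
        simp only at g1 g2 g3 g4 ⊢
        omega
      · rw [mem_fs]
        exact ⟨h5, h4⟩
    have h7 := (Finset.card_le_card hsub).trans Finset.card_biUnion_le
    have h8 : ((fs (fun w => IsB w ∧ ¬ Wide (R : ℝ) w) M).card : ℝ) ≤
        ∑ p ∈ (Icc (1 : ℤ) R) ×ˢ (Icc (-(R : ℤ)) R), ((fs (Br p.1 p.2 R) M).card : ℝ) := by
      exact_mod_cast h7
    have h9 : ∑ p ∈ (Icc (1 : ℤ) R) ×ˢ (Icc (-(R : ℤ)) R), ((fs (Br p.1 p.2 R) M).card : ℝ) ≤
        ∑ p ∈ (Icc (1 : ℤ) M) ×ˢ (Icc (-(M : ℤ)) M), mu ^ M * q N (-(A0 + 12)) := by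
      have g1 : ∀ p ∈ (Icc (1 : ℤ) R) ×ˢ (Icc (-(R : ℤ)) R),
          ((fs (Br p.1 p.2 R) M).card : ℝ) ≤
            if p ∈ (Icc (1 : ℤ) M) ×ˢ (Icc (-(M : ℤ)) M) then mu ^ M * q N (-(A0 + 12)) else 0 := by
        rintro ⟨x, y⟩ hp
        rw [Finset.mem_product, Finset.mem_Icc, Finset.mem_Icc] at hp
        simp only at hp
        split_ifs with hq
        · obtain ⟨x', rfl⟩ : ∃ x' : ℕ, x = x' := ⟨x.toNat, by omega⟩
          exact (hcon x' y (abs_le.2 ⟨by omega, by omega⟩) (by omega) (by omega)).le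
        · have : (fs (Br x y R) M).card = 0 := by
            rw [Finset.card_eq_zero, Finset.eq_empty_iff_forall_notMem]
            intro w hw
            rw [mem_fs] at hw
            apply hq
            have g2 := abs_add_abs_le w
            rw [hw.1.ex, hw.1.ey, hw.2] at g2
            have g3 := abs_nonneg x
            have g4 := abs_nonneg y
            have g5 := le_abs_self x
            have g6 := abs_le.1 (show |y| ≤ (M : ℤ) by omega)
            rw [Finset.mem_product, Finset.mem_Icc, Finset.mem_Icc]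
            simp only
            omega
          simp only at this ⊢
          rw [this]
          simp
      refine (Finset.sum_le_sum g1).trans ?_
      rw [← Finset.sum_filter]
      apply Finset.sum_le_sum_of_subset_of_nonneg
      · intro p hp
        rw [Finset.mem_filter] at hp
        exact hp.2
      · intro p _ _
        have := q_pos N (-(A0 + 12))
        have := pow_pos hmu M
        positivity
    rw [Finset.sum_const, nsmul_eq_mul, Finset.card_product] at h9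
    have h10 : ((((Icc (1 : ℤ) M).card * (Icc (-(M : ℤ)) M).card : ℕ)) : ℝ) < (N : ℝ) ^ 4 := by
      rw [Int.card_Icc, Int.card_Icc]
      have g1 : ((M : ℤ) + 1 - 1).toNat = M := by omega
      have g2 : ((M : ℤ) + 1 - -(M : ℤ)).toNat = 2 * M + 1 := by omega
      rw [g1, g2]
      have g4 : M * (2 * M + 1) < N ^ 4 := by
        have h11 : M * (2 * M + 1) ≤ N * (2 * N + 1) := Nat.mul_le_mul hMN (by omega)
        have h12 : N * (2 * N + 1) < N ^ 4 := by
          have : N ^ 4 = N * (N * (N * N)) := by ring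
          rw [this]
          apply Nat.mul_lt_mul_of_pos_left _ (by omega)
          have h13 : 4 ≤ N * N := Nat.mul_le_mul hN hN
          have h14 : N * 4 ≤ N * (N * N) := Nat.mul_le_mul_left _ h13
          omega
        omega
      exact_mod_cast g4
    have h12 := pow_le_q hN 4
    norm_num at h12
    have h13 : 0 < mu ^ M * q N (-(A0 + 12)) := mul_pos (pow_pos hmu M) (q_pos _ _)
    have h14 : mu ^ M * q N (-A0) ≤
        ((((Icc (1 : ℤ) M).card * (Icc (-(M : ℤ)) M).card : ℕ)) : ℝ) *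
          (mu ^ M * q N (-(A0 + 12))) := h1.trans (h8.trans h9)
    have h15 : mu ^ M * q N (-A0) < q N 12 * (mu ^ M * q N (-(A0 + 12))) :=
      lt_of_le_of_lt h14 (mul_lt_mul_of_pos_right (lt_of_lt_of_le h10 h12) h13)
    have h16 : q N 12 * (mu ^ M * q N (-(A0 + 12))) = mu ^ M * q N (-A0) := by
      rw [mul_left_comm, q_mul]
      congr 2
      ring
    linarith
  refine ⟨2 * h, by omega, ?_⟩
  have h2 := Br_card_ng h v R hv M
  have e1 : M + M = 2 * M := by ring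
  have e2 : (2 * (h : ℤ)) = ((2 * h : ℕ) : ℤ) := by push_cast; ring
  rw [e1, e2] at h2
  have h3 : ((fs (Br h v R) M).card : ℝ) * ((fs (Br h v R) M).card : ℝ) ≤
      ((fs (Br ((2 * h : ℕ) : ℤ) 0 (2 * R)) (2 * M)).card : ℝ) := by exact_mod_cast h2
  refine le_trans ?_ h3
  have h4 : mu ^ (2 * M) * q N (-(2 * (A0 + 12))) =
      (mu ^ M * q N (-(A0 + 12))) * (mu ^ M * q N (-(A0 + 12))) := by
    rw [show (mu ^ M * q N (-(A0 + 12))) * (mu ^ M * q N (-(A0 + 12))) =
      (mu ^ M * mu ^ M) * (q N (-(A0 + 12)) * q N (-(A0 + 12))) by ring, q_mul, ← pow_add]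
    congr 2
    · ring
    · ring
  rw [h4]
  have h5 : 0 < mu ^ M * q N (-(A0 + 12)) := mul_pos (pow_pos hmu M) (q_pos _ _)
  exact mul_le_mul hcard hcard h5.le (h5.le.trans hcard)

theorem Br_card_append (h h' T : ℤ) (m m' : ℕ) :
    (fs (Br h 0 T) m).card * (fs (Br h' 0 T) m').card ≤ (fs (Br (h + h') 0 T) (m + m')).card := by
  apply card_append_map (f := id) m m' Function.injective_id (fun _ => rfl)
  intro u w hu hw
  have := hu.append hw (S := T) le_rfl (by omega) (by omega)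
  simpa using this

theorem Br_one (T : ℤ) (hT : 0 ≤ T) : 1 ≤ (fs (Br 1 0 T) 1).card := by
  apply Finset.one_le_card.2
  refine ⟨[St.E], ?_⟩
  rw [mem_fs]
  have hp : ∀ k, k ≤ [St.E].length → (k = 0 ∧ path [St.E] k = (0, 0)) ∨
      (k = 1 ∧ path [St.E] k = (1, 0)) := by
    intro k hk
    simp only [List.length_cons, List.length_nil] at hk
    interval_cases k
    · left; exact ⟨rfl, path_zero _⟩
    · right; exact ⟨rfl, by simp [path]⟩
  refine ⟨⟨?_, by simp, by simp, ?_, ?_, ?_, ?_⟩, rfl⟩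
  · rw [saw_iff']
    intro i j hij hj
    simp only [List.length_cons, List.length_nil] at hj
    obtain rfl : j = 1 := by omega
    obtain rfl : i = 0 := by omega
    simp [path]
  · intro k h1 hk
    rcases hp k hk with ⟨h2, h3⟩ | ⟨h2, h3⟩
    · omega
    · rw [h3]; simp
  · intro k hk
    rcases hp k hk with ⟨h2, h3⟩ | ⟨h2, h3⟩ <;> rw [h3] <;> simp
  · intro k hk
    rcases hp k hk with ⟨h2, h3⟩ | ⟨h2, h3⟩ <;> rw [h3] <;> simp only <;> omega
  · intro k hk
    rcases hp k hk with ⟨h2, h3⟩ | ⟨h2, h3⟩ <;> rw [h3] <;> simp only <;> omega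

/-- **rows of every length** -/
theorem rows : ∃ A : ℝ, 4 ≤ A ∧ ∀ N : ℕ, 2 ≤ N → ∀ R : ℕ, 2 ≤ R →
    A * Lg N ≤ R * mass (1 / N) → ∀ l : ℕ,
    ∃ L : ℕ, L ≤ 2 * R * (l / (2 * (N / 2)) + 1) + 1 ∧
      mu ^ l * q N (-A) ^ (l / (2 * (N / 2)) + 2) ≤ ((fs (Br L 0 (2 * R)) l).card : ℝ) := by
  obtain ⟨A, hA, hb⟩ := blocks2
  refine ⟨A, hA, ?_⟩
  intro N hN R hR hRA l
  obtain ⟨M, hM⟩ : ∃ M, M = 2 * (N / 2) := ⟨_, rfl⟩
  obtain ⟨J, hJ⟩ : ∃ J, J = l / M := ⟨_, rfl⟩
  rw [← hM, ← hJ]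
  have hM1 : 2 ≤ M := by omega
  have hMN : M ≤ N := by omega
  have hmu := mu_pos
  have hT : (0 : ℤ) ≤ 2 * R := by omega
  have hLg := Lg_ge hN
  obtain ⟨ε, hε⟩ : ∃ ε, ε = q N (-A) := ⟨_, rfl⟩
  have hε0 : 0 < ε := by rw [hε]; exact q_pos _ _
  have hε1 : ε ≤ 1 / 4 := by
    rw [hε, q_eq]
    have h5 : -A * Lg N ≤ -(1.88 : ℝ) := by nlinarith
    have h6 : Real.exp (-A * Lg N) ≤ Real.exp (-1.88) := Real.exp_le_exp.2 h5
    have h7 : Real.exp (-(1.88 : ℝ)) ≤ 1 / 4 := by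
      rw [Real.exp_neg, inv_eq_one_div]
      apply one_div_le_one_div_of_le (by norm_num)
      have h8 : Real.exp (1.88 : ℝ) = Real.exp 0.94 * Real.exp 0.94 := by
        rw [← Real.exp_add]; norm_num
      have h9 := Real.quadratic_le_exp_of_nonneg (x := 0.94) (by norm_num)
      rw [h8]
      nlinarith
    linarith
  rw [← hε]
  obtain ⟨h, hh, hcard⟩ := hb N hN R hR hRA (N / 2) (by omega)
  obtain ⟨r, hr⟩ : ∃ r, r = l % M := ⟨_, rfl⟩
  have hl : M * J + r = l := by rw [hJ, hr]; exact Nat.div_add_mod l M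
  have hrM : r < M := by rw [hr]; exact Nat.mod_lt _ (by omega)
  obtain ⟨h', hh', hcard'⟩ := hb N hN R hR hRA (r / 2) (by omega)
  rw [← hM, ← hε] at hcard
  rw [← hε] at hcard'
  have hpow : mu ^ (M * J) * ε ^ J ≤ ((fs (Br (h * J) 0 (2 * R)) (M * J)).card : ℝ) := by
    have h1 := Br_card_pow h (2 * R) hT M J
    have h2 : ((fs (Br h 0 (2 * R)) M).card : ℝ) ^ J ≤
        ((fs (Br (h * J) 0 (2 * R)) (M * J)).card : ℝ) := by exact_mod_cast h1
    refine le_trans ?_ h2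
    rw [pow_mul, ← mul_pow]
    exact pow_le_pow_left₀ (by positivity) hcard J
  have happ : mu ^ (M * J + 2 * (r / 2)) * ε ^ (J + 1) ≤
      ((fs (Br ((h * J + h' : ℕ) : ℤ) 0 (2 * R)) (M * J + 2 * (r / 2))).card : ℝ) := by
    have h1 := Br_card_append (h * J) h' (2 * R) (M * J) (2 * (r / 2))
    have e1 : ((h * J + h' : ℕ) : ℤ) = (h : ℤ) * J + h' := by push_cast; ring
    rw [e1]
    have h2 : ((fs (Br (h * J) 0 (2 * R)) (M * J)).card : ℝ) *
        ((fs (Br h' 0 (2 * R)) (2 * (r / 2))).card : ℝ) ≤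
        ((fs (Br (h * J + h') 0 (2 * R)) (M * J + 2 * (r / 2))).card : ℝ) := by exact_mod_cast h1
    refine le_trans ?_ h2
    calc mu ^ (M * J + 2 * (r / 2)) * ε ^ (J + 1) =
        (mu ^ (M * J) * ε ^ J) * (mu ^ (2 * (r / 2)) * ε) := by rw [pow_add, pow_succ]; ring
      _ ≤ _ := mul_le_mul hpow hcard' (by positivity) (le_trans (by positivity) hpow)
  have hhJ : h * J ≤ 2 * R * J := Nat.mul_le_mul_right _ hh
  rcases Nat.even_or_odd' r with ⟨s, hs | hs⟩
  · have e1 : r / 2 = s := by omega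
    rw [e1] at happ
    refine ⟨h * J + h', by nlinarith, ?_⟩
    have e2 : M * J + 2 * s = l := by omega
    rw [e2] at happ
    refine le_trans ?_ happ
    apply mul_le_mul_of_nonneg_left _ (by positivity)
    exact pow_le_pow_of_le_one hε0.le (by linarith) (by omega)
  · have e1 : r / 2 = s := by omega
    rw [e1] at happ
    refine ⟨h * J + h' + 1, by nlinarith, ?_⟩
    have h1 := Br_card_append ((h * J + h' : ℕ) : ℤ) 1 (2 * R) (M * J + 2 * s) 1
    have h2 := Br_one (2 * R) hT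
    have e2 : M * J + 2 * s + 1 = l := by omega
    rw [e2] at h1
    have e3 : ((h * J + h' + 1 : ℕ) : ℤ) = ((h * J + h' : ℕ) : ℤ) + 1 := by push_cast; ring
    rw [e3]
    have h3 : ((fs (Br ((h * J + h' : ℕ) : ℤ) 0 (2 * R)) (M * J + 2 * s)).card : ℝ) ≤
        ((fs (Br (((h * J + h' : ℕ) : ℤ) + 1) 0 (2 * R)) l).card : ℝ) := by
      have : (fs (Br ((h * J + h' : ℕ) : ℤ) 0 (2 * R)) (M * J + 2 * s)).card ≤
        (fs (Br (((h * J + h' : ℕ) : ℤ) + 1) 0 (2 * R)) l).card := by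
        refine le_trans ?_ h1
        exact Nat.le_mul_of_pos_right _ h2
      exact_mod_cast this
    refine le_trans ?_ h3
    refine le_trans ?_ happ
    have e4 : mu ^ l * ε ^ (J + 2) = (mu ^ (M * J + 2 * s) * ε ^ (J + 1)) * (mu * ε) := by
      rw [← e2]
      ring
    rw [e4]
    have h4 : mu * ε ≤ 1 := by
      have := mu_le_four
      nlinarith
    have h5 : 0 ≤ mu ^ (M * J + 2 * s) * ε ^ (J + 1) := by positivity
    nlinarith

end Pool.Agent.Helper365.SP
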